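import Pool.Agent.Run7.h472.OH.Iface

/-!
# Piece OTG: from the outer events to the local deficits
-/

set_option autoImplicit false

open MeasureTheory ProbabilityTheory Filter Set
open scoped ENNReal Pointwise Topology

namespace Pool.Agent.Run7.h213.OH

open Pool.Agent.N662.FP Pool.Agent.Run7.h472.OH

/-- the passage time is at most the time of a finite path -/
lemma D_le_tmS (hGE : S_GE) {x : Env} (hx : ∀ e, 0 ≤ x e) (q : Sq)
    (hst : ∀ i : Fin q.1,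
      |(q.2 i.succ).1 - (q.2 i.castSucc).1| + |(q.2 i.succ).2 - (q.2 i.castSucc).2| = 1) :
    D x (q.2 0) (q.2 (Fin.last _)) ≤ tmS x q := by
  have hb := (hGE x hx (q.2 0) (q.2 (Fin.last _))).2.1
  set p : ℕ → ℤ × ℤ := fun i => q.2 ⟨min i q.1, Nat.lt_succ_of_le (min_le_right _ _)⟩ with hp
  have hp1 : ∀ i : Fin q.1, p i = q.2 i.castSucc := fun i =>
    congrArg q.2 (Fin.ext (by simp [i.2.le]))
  have hp2 : ∀ i : Fin q.1, p (i + 1) = q.2 i.succ := fun i =>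
    congrArg q.2 (Fin.ext (by
      have : (i : ℕ) + 1 ≤ q.1 := i.2
      simp [this]))
  refine csInf_le hb ⟨q.1, p, ?_, ?_, ?_, ?_⟩
  · exact congrArg q.2 (Fin.ext (by simp))
  · exact congrArg q.2 (Fin.ext (by simp))
  · intro i hi
    have h1 := hp1 ⟨i, hi⟩
    have h2 := hp2 ⟨i, hi⟩
    have h3 := hst ⟨i, hi⟩
    rw [← h1, ← h2] at h3
    exact h3
  · rw [Finset.sum_range]
    unfold tmS
    refine Finset.sum_congr rfl fun i _ => ?_
    rw [hp1, hp2]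
    exact max_eq_left (hx _)

/-- the lattice points of the box of radius `R` -/
noncomputable def bx (R : ℕ) : Finset (ℤ × ℤ) := Finset.Icc (-(R : ℤ)) R ×ˢ Finset.Icc (-(R : ℤ)) R

lemma mem_bx {R : ℕ} {z : ℤ × ℤ} : z ∈ bx R ↔ nm z ≤ R := by
  unfold bx nm
  rw [Finset.mem_product, Finset.mem_Icc, Finset.mem_Icc, max_le_iff]
  constructor
  · rintro ⟨⟨h1, h2⟩, h3, h4⟩
    constructor <;> omega
  · rintro ⟨h1, h2⟩
    refine ⟨⟨?_, ?_⟩, ?_, ?_⟩ <;> omega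

/-- the block `0` -/
noncomputable def b0 (n : ℕ) : Finset (ℤ × ℤ) := Finset.Ico (0 : ℤ) n ×ˢ Finset.Ico (0 : ℤ) n

lemma card_b0 (n : ℕ) : (b0 n).card = n ^ 2 := by
  unfold b0
  rw [Finset.card_product, Int.card_Ico]
  simp [sq]

lemma mem_b0 {n : ℕ} (hn : 1 ≤ n) {z : ℤ × ℤ} (h : blk n z = 0) : z ∈ b0 n := by
  unfold blk at h
  have h1 : z.1 / (n : ℤ) = 0 := congrArg Prod.fst h
  have h2 : z.2 / (n : ℤ) = 0 := congrArg Prod.snd h
  have hn' : (0 : ℤ) < n := by exact_mod_cast hn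
  unfold b0
  rw [Finset.mem_product, Finset.mem_Ico, Finset.mem_Ico]
  have a1 := Int.emod_nonneg z.1 hn'.ne'
  have a2 := Int.emod_lt_of_pos z.1 hn'
  have a3 := Int.emod_nonneg z.2 hn'.ne'
  have a4 := Int.emod_lt_of_pos z.2 hn'
  have e1 := Int.emod_add_mul_ediv z.1 n
  have e2 := Int.emod_add_mul_ediv z.2 n
  rw [h1, mul_zero, add_zero] at e1
  rw [h2, mul_zero, add_zero] at e2
  rw [e1] at a1 a2
  rw [e2] at a3 a4
  exact ⟨⟨a1, a2⟩, a3, a4⟩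

/-- a large local deficit gives a small passage time -/
lemma exists_of_lt_W (hGE : S_GE) {μ : Seminorm ℝ (ℝ × ℝ)} {L n : ℕ} (hn : 1 ≤ n) {u : ℝ}
    (hu : 0 ≤ u) {x : Env} (hx : ∀ e, 0 ≤ x e) (h : u < W μ L n 0 x) :
    ∃ a ∈ b0 n, ∃ z ∈ bx ((L + 1) * n), D x a (a + z) < μ (em z) - u := by
  unfold W at h
  have hne : Nonempty {q : Sq // Val L n 0 q} := by
    by_contra hc
    rw [not_nonempty_iff] at hc
    rw [Real.iSup_of_isEmpty] at h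
    linarith
  obtain ⟨⟨q, hq⟩, h1⟩ := exists_lt_of_lt_ciSup h
  simp only at h1
  refine ⟨q.2 0, mem_b0 hn hq.start, q.2 (Fin.last _) - q.2 0, ?_, ?_⟩
  · rw [mem_bx]
    have k1 := mem_b0 hn hq.start
    unfold b0 at k1
    rw [Finset.mem_product, Finset.mem_Ico, Finset.mem_Ico] at k1
    have k2 := hq.inR (Fin.last _)
    unfold InR at k2
    simp only [Prod.fst_zero, Prod.snd_zero, mul_zero, sub_zero] at k2
    obtain ⟨⟨k3, k4⟩, k5, k6⟩ := k1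
    obtain ⟨k7, k8⟩ := k2
    rw [abs_le] at k7 k8
    have e : ((((L + 1) * n : ℕ) : ℤ)) = (L : ℤ) * n + n := by push_cast; ring
    unfold nm
    rw [max_le_iff]
    simp only [Prod.fst_sub, Prod.snd_sub]
    constructor <;> zify <;> rw [abs_le] <;> push_cast <;> constructor <;> nlinarith
  · rw [add_sub_cancel]
    have := D_le_tmS hGE hx q hq.step
    linarith

/-- a point of the cluster far outside gives the outer event -/
lemma mem_Out {Ω : Type} (T : Ω → ℤ × ℤ → ℝ) (μ : Seminorm ℝ (ℝ × ℝ)) {κ t : ℝ} (ht : 0 < t)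
    {ω : Ω} {z : ℤ × ℤ} (h1 : T ω z ≤ t) (h2 : t + t ^ (1 - κ) < μ (em z)) :
    ω ∈ Out T μ κ t := by
  intro hsub
  have h3 : em z ∈ Fat (T ω) t := ⟨z, h1, by simp [Pool.Agent.N662.FP.em], by simp [Pool.Agent.N662.FP.em]⟩
  obtain ⟨y, hy, hy2⟩ := hsub h3
  have hy3 : ((1 + t ^ (-κ)) * t) • y = em z := hy2
  have hy4 : μ y ≤ 1 := hy
  have e1 : (1 + t ^ (-κ)) * t = t + t ^ (1 - κ) := by
    rw [sub_eq_add_neg, Real.rpow_add ht, Real.rpow_one]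
    ring
  have h4 : 0 < (1 + t ^ (-κ)) * t := by positivity
  have h5 : μ (em z) = ((1 + t ^ (-κ)) * t) * μ y := by
    rw [← hy3, map_smul_eq_mul, Real.norm_of_nonneg h4.le]
  rw [← e1, h5] at h2
  nlinarith

/-- a small passage time gives one of the outer events -/
lemma incl {Ω : Type} (hGE : S_GE) (X : Sym2 (ℤ × ℤ) → Ω → ℝ) {μ : Seminorm ℝ (ℝ × ℝ)} {c C : ℝ}
    {L : ℕ} (hc : Cst μ c C L) {κ : ℝ} (hκ : 0 < κ) (hκ1 : κ < 1) {n : ℕ} {g : ℝ} (hg : 4 ≤ g)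
    (hb : 1 + (C * (L + 1) * n + 1) ^ (1 - κ) ≤ g) {ω : Ω} (hx : ∀ e, 0 ≤ env X ω e)
    (h : ∃ z ∈ bx ((L + 1) * n), D (env X ω) 0 z < μ (em z) - g) :
    ∃ t ∈ Finset.Icc ⌈g / 4⌉₊ ⌈C * (L + 1) * n⌉₊,
      ω ∈ Out (fun ω v => D (env X ω) 0 v) μ κ ((t : ℕ) : ℝ) := by
  obtain ⟨z, hz, h1⟩ := h
  have hT := (hGE (env X ω) hx 0 z).2.2.1
  have hz1 : (nm z : ℝ) ≤ (L + 1) * n := by
    have := mem_bx.1 hz
    exact_mod_cast this
  have hz2 : μ (em z) ≤ C * (L + 1) * n := by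
    refine (hc.hi z).trans ?_
    rw [mul_assoc]
    exact mul_le_mul_of_nonneg_left hz1 hc.C_pos.le
  by_cases hc1 : g / 4 ≤ D (env X ω) 0 z
  · refine ⟨⌈D (env X ω) 0 z⌉₊, ?_, ?_⟩
    · rw [Finset.mem_Icc]
      exact ⟨Nat.ceil_le_ceil hc1, Nat.ceil_le_ceil (by linarith)⟩
    · have k1 : D (env X ω) 0 z ≤ (⌈D (env X ω) 0 z⌉₊ : ℝ) := Nat.le_ceil _
      have k2 : (⌈D (env X ω) 0 z⌉₊ : ℝ) < D (env X ω) 0 z + 1 := Nat.ceil_lt_add_one hT
      refine mem_Out _ μ (by linarith) k1 ?_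
      have k3 : (⌈D (env X ω) 0 z⌉₊ : ℝ) ^ (1 - κ) ≤ (C * (L + 1) * n + 1) ^ (1 - κ) :=
        Real.rpow_le_rpow (by linarith) (by linarith) (by linarith)
      linarith
  · push Not at hc1
    refine ⟨⌈g / 4⌉₊, ?_, ?_⟩
    · rw [Finset.mem_Icc]
      exact ⟨le_rfl, Nat.ceil_le_ceil (by linarith)⟩
    · have k1 : g / 4 ≤ (⌈g / 4⌉₊ : ℝ) := Nat.le_ceil _
      have k2 : (⌈g / 4⌉₊ : ℝ) < g / 4 + 1 := Nat.ceil_lt_add_one (by linarith)
      refine mem_Out _ μ (by linarith) (by linarith) ?_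
      have k3 : (⌈g / 4⌉₊ : ℝ) ^ (1 - κ) ≤ (⌈g / 4⌉₊ : ℝ) ^ (1 : ℝ) :=
        Real.rpow_le_rpow_of_exponent_le (by linarith) (by linarith)
      rw [Real.rpow_one] at k3
      linarith

/-- the tail of the deficit by the outer events -/
lemma G_le (hWB : S_WBD) (hTR : S_TR) (hGE : S_GE) (hAE : S_AE) {Ω : Type} [MeasureSpace Ω]
    [IsProbabilityMeasure (volume : Measure Ω)] (X : Sym2 (ℤ × ℤ) → Ω → ℝ) (hX : Iid X)
    {μ : Seminorm ℝ (ℝ × ℝ)} {c C : ℝ} {L : ℕ} (hc : Cst μ c C L) {κ : ℝ} (hκ : 0 < κ)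
    (hκ1 : κ < 1) {n : ℕ} (hn : 1 ≤ n) {g : ℝ} (hg : 4 ≤ g)
    (hb : 1 + (C * (L + 1) * n + 1) ^ (1 - κ) ≤ g) {E : ℝ}
    (hE : ∀ t : ℕ, g / 4 ≤ t →
      (volume : Measure Ω).real (Out (fun ω v => D (env X ω) 0 v) μ κ (t : ℝ)) ≤ E)
    (hE0 : 0 ≤ E) :
    G X μ L n g ≤ n ^ 2 * ((C * (L + 1) * n + 2) * E) := by
  have hae := hAE Ω X hX
  -- union over the starting points
  have s1 : G X μ L n g ≤ (volume : Measure Ω).real (⋃ a ∈ b0 n,
      {ω | ∃ z ∈ bx ((L + 1) * n), D (env X ω) a (a + z) < μ (em z) - g}) := by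
    unfold G
    rw [measureReal_def, measureReal_def]
    refine ENNReal.toReal_mono (measure_ne_top _ _) (measure_mono_ae ?_)
    filter_upwards [hae] with ω hω h
    obtain ⟨a, ha, h1⟩ := exists_of_lt_W hGE hn (by linarith : (0 : ℝ) ≤ g) hω h
    exact mem_iUnion₂.2 ⟨a, ha, h1⟩
  have s2 : (volume : Measure Ω).real (⋃ a ∈ b0 n,
      {ω | ∃ z ∈ bx ((L + 1) * n), D (env X ω) a (a + z) < μ (em z) - g}) ≤
      ∑ a ∈ b0 n, (volume : Measure Ω).real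
        {ω | ∃ z ∈ bx ((L + 1) * n), D (env X ω) a (a + z) < μ (em z) - g} :=
    measureReal_biUnion_finset_le _ _
  have s3 : ∀ a ∈ b0 n, (volume : Measure Ω).real
        {ω | ∃ z ∈ bx ((L + 1) * n), D (env X ω) a (a + z) < μ (em z) - g} =
      (volume : Measure Ω).real
        {ω | ∃ z ∈ bx ((L + 1) * n), D (env X ω) 0 z < μ (em z) - g} := fun a _ =>
    hTR Ω X hX a _ _
  -- one starting point
  have s4 : (volume : Measure Ω).real
        {ω | ∃ z ∈ bx ((L + 1) * n), D (env X ω) 0 z < μ (em z) - g} ≤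
      (volume : Measure Ω).real (⋃ t ∈ Finset.Icc ⌈g / 4⌉₊ ⌈C * (L + 1) * n⌉₊,
        Out (fun ω v => D (env X ω) 0 v) μ κ ((t : ℕ) : ℝ)) := by
    rw [measureReal_def, measureReal_def]
    refine ENNReal.toReal_mono (measure_ne_top _ _) (measure_mono_ae ?_)
    filter_upwards [hae] with ω hω h
    obtain ⟨t, ht, h1⟩ := incl hGE X hc hκ hκ1 hg hb hω h
    exact mem_iUnion₂.2 ⟨t, ht, h1⟩
  have s5 : (volume : Measure Ω).real (⋃ t ∈ Finset.Icc ⌈g / 4⌉₊ ⌈C * (L + 1) * n⌉₊,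
        Out (fun ω v => D (env X ω) 0 v) μ κ ((t : ℕ) : ℝ)) ≤
      ∑ t ∈ Finset.Icc ⌈g / 4⌉₊ ⌈C * (L + 1) * n⌉₊,
        (volume : Measure Ω).real (Out (fun ω v => D (env X ω) 0 v) μ κ ((t : ℕ) : ℝ)) :=
    measureReal_biUnion_finset_le _ _
  have s6 : ∑ t ∈ Finset.Icc ⌈g / 4⌉₊ ⌈C * (L + 1) * n⌉₊,
        (volume : Measure Ω).real (Out (fun ω v => D (env X ω) 0 v) μ κ ((t : ℕ) : ℝ)) ≤
      (C * (L + 1) * n + 2) * E := by
    have h1 : ∀ t ∈ Finset.Icc ⌈g / 4⌉₊ ⌈C * (L + 1) * n⌉₊,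
        (volume : Measure Ω).real (Out (fun ω v => D (env X ω) 0 v) μ κ ((t : ℕ) : ℝ)) ≤ E := by
      intro t ht
      refine hE t ?_
      exact (Nat.le_ceil _).trans (by exact_mod_cast (Finset.mem_Icc.1 ht).1)
    refine (Finset.sum_le_card_nsmul _ _ _ h1).trans ?_
    rw [nsmul_eq_mul]
    refine mul_le_mul_of_nonneg_right ?_ hE0
    have h2 : (Finset.Icc ⌈g / 4⌉₊ ⌈C * (L + 1) * n⌉₊).card ≤ ⌈C * (L + 1) * (n : ℝ)⌉₊ + 1 := by
      rw [Nat.card_Icc]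
      omega
    have h3 : (⌈C * (L + 1) * (n : ℝ)⌉₊ : ℝ) < C * (L + 1) * n + 1 :=
      Nat.ceil_lt_add_one (by have := hc.C_pos; positivity)
    have h4 : ((Finset.Icc ⌈g / 4⌉₊ ⌈C * (L + 1) * n⌉₊).card : ℝ) ≤
        (⌈C * (L + 1) * (n : ℝ)⌉₊ : ℝ) + 1 := by exact_mod_cast h2
    linarith
  refine (s1.trans s2).trans ?_
  rw [Finset.sum_congr rfl s3, Finset.sum_const, card_b0, nsmul_eq_mul]
  push_cast
  exact mul_le_mul_of_nonneg_left ((s4.trans s5).trans s6) (by positivity)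

theorem t_OTG (hWB : S_WBD) (hTR : S_TR) (hGE : S_GE) (hAE : S_AE) : S_OTG := by
  intro Ω _ _ X hX μ c C L hc κ κ1 q hκ1 hκ hκ2 hq hO
  have hC := hc.C_pos
  have hκ0 : 0 < κ := hκ1.trans hκ
  have hq0 : 3 < (1 - κ) * q := by
    rw [div_lt_iff₀ (by linarith)] at hq
    linarith
  have hqpos : 0 < q := by
    by_contra hcon
    push Not at hcon
    nlinarith
  have hq1 : 3 < (1 - κ1) * q := by nlinarith
  set q1 : ℝ := ((1 - κ1) * q - 3) / 2 with hq1d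
  have hq1p : 0 < q1 := by rw [hq1d]; linarith
  refine ⟨q1, hq1p, ?_⟩
  obtain ⟨A, hA, hA1⟩ := hO.exists_pos
  obtain ⟨t0, ht0⟩ := eventually_atTop.1 hA1.bound
  -- eventual properties
  have tn : Tendsto (fun n : ℕ => (n : ℝ)) atTop atTop := tendsto_natCast_atTop_atTop
  have tg : Tendsto (fun n : ℕ => (n : ℝ) ^ (1 - κ1)) atTop atTop :=
    (tendsto_rpow_atTop (by linarith : (0 : ℝ) < 1 - κ1)).comp tn
  have te : Tendsto (fun n : ℕ => (n : ℝ) ^ (κ - κ1)) atTop atTop :=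
    (tendsto_rpow_atTop (by linarith : (0 : ℝ) < κ - κ1)).comp tn
  have tq : Tendsto (fun n : ℕ => (n : ℝ) ^ q1) atTop atTop :=
    (tendsto_rpow_atTop hq1p).comp tn
  set D1 : ℝ := 1 + (C * (L + 1) + 1) ^ (1 - κ) with hD1
  set D2 : ℝ := (C * (L + 1) + 2) * (A * 4 ^ q) with hD2
  filter_upwards [eventually_ge_atTop 1, tg.eventually_ge_atTop 4,
    tg.eventually_ge_atTop (4 * t0), te.eventually_ge_atTop D1, tq.eventually_ge_atTop D2]
    with n hn h4 ht hd1 hd2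
  have hn1 : (1 : ℝ) ≤ n := by exact_mod_cast hn
  have hn0 : (0 : ℝ) < n := by linarith
  have hL0 : (0 : ℝ) ≤ C * (L + 1) := by positivity
  set g : ℝ := (n : ℝ) ^ (1 - κ1) with hgd
  have hb : 1 + (C * (L + 1) * n + 1) ^ (1 - κ) ≤ g := by
    have k1 : (C * (L + 1) * n + 1) ^ (1 - κ) ≤ ((C * (L + 1) + 1) * n) ^ (1 - κ) := by
      refine Real.rpow_le_rpow (by positivity) ?_ (by linarith)
      nlinarith
    rw [Real.mul_rpow (by positivity) hn0.le] at k1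
    have k2 : (1 : ℝ) ≤ (n : ℝ) ^ (1 - κ) := Real.one_le_rpow hn1 (by linarith)
    have k3 : g = (n : ℝ) ^ (κ - κ1) * (n : ℝ) ^ (1 - κ) := by
      rw [hgd, ← Real.rpow_add hn0]
      congr 1
      ring
    rw [k3]
    have k4 : D1 * (n : ℝ) ^ (1 - κ) ≤ (n : ℝ) ^ (κ - κ1) * (n : ℝ) ^ (1 - κ) :=
      mul_le_mul_of_nonneg_right hd1 (by positivity)
    rw [hD1] at k4
    nlinarith
  have hE : ∀ t : ℕ, g / 4 ≤ t →
      (volume : Measure Ω).real (Out (fun ω v => D (env X ω) 0 v) μ κ (t : ℝ)) ≤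
        A * (g / 4) ^ (-q) := by
    intro t ht1
    have k1 := ht0 t (by linarith)
    rw [Real.norm_of_nonneg measureReal_nonneg, Real.norm_of_nonneg (by positivity)] at k1
    refine k1.trans (mul_le_mul_of_nonneg_left ?_ hA.le)
    exact Real.rpow_le_rpow_of_nonpos (by linarith) ht1 (by linarith)
  have key := G_le hWB hTR hGE hAE X hX hc hκ0 hκ2 hn h4 hb hE
    (by have : (0:ℝ) ≤ g / 4 := by linarith
        positivity)
  refine key.trans ?_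
  have e1 : (g / 4) ^ (-q) = 4 ^ q * (n : ℝ) ^ (-((1 - κ1) * q)) := by
    rw [Real.div_rpow (by linarith) (by norm_num), Real.rpow_neg (by norm_num : (0:ℝ) ≤ 4),
      div_inv_eq_mul, hgd, ← Real.rpow_mul hn0.le, mul_comm]
    congr 2
    ring
  have e2 : C * (L + 1) * (n : ℝ) + 2 ≤ (C * (L + 1) + 2) * n := by nlinarith
  have e3 : (n : ℝ) ^ 2 * n * (n : ℝ) ^ (-((1 - κ1) * q)) = (n : ℝ) ^ (-q1) * (n : ℝ) ^ (-q1) := by
    have : (n : ℝ) ^ 2 * n = (n : ℝ) ^ (3 : ℝ) := by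
      rw [show (3 : ℝ) = ((3 : ℕ) : ℝ) by norm_num, Real.rpow_natCast]
      ring
    rw [this, ← Real.rpow_add hn0, ← Real.rpow_add hn0]
    congr 1
    rw [hq1d]
    ring
  have e4 : D2 * (n : ℝ) ^ (-q1) ≤ 1 := by
    rw [Real.rpow_neg hn0.le, ← div_eq_mul_inv, div_le_one (by positivity)]
    exact hd2
  calc (n : ℝ) ^ 2 * ((C * (L + 1) * n + 2) * (A * (g / 4) ^ (-q)))
      ≤ (n : ℝ) ^ 2 * (((C * (L + 1) + 2) * n) * (A * (g / 4) ^ (-q))) := by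
        have : (0:ℝ) ≤ g / 4 := by linarith
        gcongr
    _ = D2 * (((n : ℝ) ^ 2 * n) * (n : ℝ) ^ (-((1 - κ1) * q))) := by
        rw [e1, hD2]; ring
    _ = (D2 * (n : ℝ) ^ (-q1)) * (n : ℝ) ^ (-q1) := by rw [e3]; ring
    _ ≤ 1 * (n : ℝ) ^ (-q1) := mul_le_mul_of_nonneg_right e4 (by positivity)
    _ = (n : ℝ) ^ (-q1) := one_mul _

end Pool.Agent.Run7.h213.OH
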