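import Pool.Agent.Run7.h472.OH.Iface
import Pool.Agent.N390.FL.TI

/-!
# Piece TR: joint translation invariance of the passage times

The proof of `Pool.Agent.N195.FM.t_TIL` for finitely many end points at once.
-/

set_option autoImplicit false

open MeasureTheory ProbabilityTheory Filter Set

namespace Pool.Agent.Run7.h213.OH

open Pool.Agent.N662.FP Pool.Agent.Run7.h472.OH
open Pool.Agent.N390.FL.TI (sg sg_inj D_shift)

theorem t_TR (h1 : S_ME) (h2 : S_AE) : S_TR := by
  intro Ω _ _ X hX a Z h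
  set Φ : ℤ × ℤ → (Sym2 (ℤ × ℤ) → ℝ) → ℝ := fun v x => D (fun e => max (x e) 0) 0 v with hΦ
  have hae := h2 Ω X hX
  have hE : MeasurableSet {x | ∃ z ∈ Z, Φ z x < h z} := by
    have e : {x | ∃ z ∈ Z, Φ z x < h z} = ⋃ z ∈ Z, {x | Φ z x < h z} := by
      ext x; simp
    rw [e]
    exact Finset.measurableSet_biUnion Z fun z _ => measurableSet_lt (h1 0 z) measurable_const
  -- both sides through `Φ`
  have e1 : (volume : Measure Ω) {ω | ∃ z ∈ Z, D (env X ω) a (a + z) < h z} =
      (volume : Measure Ω)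
        ((fun ω (e : Sym2 (ℤ × ℤ)) => X (sg a e) ω) ⁻¹' {x | ∃ z ∈ Z, Φ z x < h z}) := by
    refine measure_congr ?_
    filter_upwards [hae] with ω hω
    have h3 : ∀ v, D (env X ω) a (a + v) = Φ v (fun e => X (sg a e) ω) := by
      intro v
      rw [D_shift]
      show D _ 0 v = D _ 0 v
      congr 1
      funext e
      exact (max_eq_left (hω (sg a e))).symm
    show (∃ z ∈ Z, D (env X ω) a (a + z) < h z) = (∃ z ∈ Z, Φ z (fun e => X (sg a e) ω) < h z)
    simp only [h3]
  have e2 : (volume : Measure Ω) {ω | ∃ z ∈ Z, D (env X ω) 0 z < h z} =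
      (volume : Measure Ω)
        ((fun ω (e : Sym2 (ℤ × ℤ)) => X e ω) ⁻¹' {x | ∃ z ∈ Z, Φ z x < h z}) := by
    refine measure_congr ?_
    filter_upwards [hae] with ω hω
    have h3 : ∀ v, D (env X ω) 0 v = Φ v (fun e => X e ω) := by
      intro v
      show D _ 0 v = D _ 0 v
      congr 1
      funext e
      exact (max_eq_left (hω e)).symm
    show (∃ z ∈ Z, D (env X ω) 0 z < h z) = (∃ z ∈ Z, Φ z (fun e => X e ω) < h z)
    simp only [h3]
  have m1 : Measurable (fun ω (e : Sym2 (ℤ × ℤ)) => X (sg a e) ω) :=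
    measurable_pi_iff.2 fun e => hX.meas _
  have m2 : Measurable (fun ω (e : Sym2 (ℤ × ℤ)) => X e ω) := measurable_pi_iff.2 fun e => hX.meas e
  have l1 : Measure.map (fun ω (e : Sym2 (ℤ × ℤ)) => X (sg a e) ω) (volume : Measure Ω) =
      Measure.infinitePi (fun _ : Sym2 (ℤ × ℤ) => expMeasure 1) := by
    have h3 : iIndepFun (fun e => X (sg a e)) (volume : Measure Ω) := hX.ind.precomp (sg_inj a)
    have h4 := (iIndepFun_iff_map_fun_eq_infinitePi_map (fun e => hX.meas (sg a e))).1 h3
    rw [h4]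
    congr 1
    funext e
    exact hX.law _
  have l2 : Measure.map (fun ω (e : Sym2 (ℤ × ℤ)) => X e ω) (volume : Measure Ω) =
      Measure.infinitePi (fun _ : Sym2 (ℤ × ℤ) => expMeasure 1) := by
    have h4 := (iIndepFun_iff_map_fun_eq_infinitePi_map hX.meas).1 hX.ind
    rw [h4]
    congr 1
    funext e
    exact hX.law _
  rw [measureReal_def, measureReal_def, e1, e2, ← Measure.map_apply m1 hE,
    ← Measure.map_apply m2 hE, l1, l2]

end Pool.Agent.Run7.h213.OH
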